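import Pool.Agent.helper14.AV.Spec

/-! # A connecting edge does not meet the other segments -/

set_option autoImplicit false

namespace Pool.Agent.helper14.AV

lemma LMZ_aff (a b p q : ℝ × ℝ) (α β : ℝ) (h : α + β = 1) :
    D a b (α • p + β • q) = α * D a b p + β * D a b q := by
  have hβ : β = 1 - α := by linarith
  subst hβ
  unfold D
  simp only [Prod.fst_add, Prod.snd_add, Prod.smul_fst, Prod.smul_snd, smul_eq_mul]
  ring

lemma LMZ_za (a b : ℝ × ℝ) : D a b a = 0 := by
  unfold D
  ring

lemma LMZ_zb (a b : ℝ × ℝ) : D a b b = 0 := by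
  unfold D
  ring

theorem LMZ : LMZ_stmt := by
  intro ι A B u j s x y hxy hx hy hj
  rw [Set.disjoint_left]
  rintro z ⟨a, b, ha, hb, hab, rfl⟩ ⟨c, d, hc, hd, hcd, hz⟩
  have e := congrArg (D (A u) (B u)) hz
  rw [LMZ_aff _ _ _ _ c d hcd, LMZ_aff _ _ _ _ a b hab] at e
  have hx0 : x.1 = u → D (A u) (B u) (fn A B x) = 0 := by
    intro h
    unfold fn
    split_ifs
    · rw [h]
      exact LMZ_zb _ _
    · rw [h]
      exact LMZ_za _ _
  have hy0 : y.1 = u → D (A u) (B u) (st A B y) = 0 := by
    intro h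
    unfold st
    split_ifs
    · rw [h]
      exact LMZ_za _ _
    · rw [h]
      exact LMZ_zb _ _
  have hxnn : 0 ≤ s * D (A u) (B u) (fn A B x) := by
    by_cases h : x.1 = u
    · rw [hx0 h, mul_zero]
    · exact (hx h).le
  have hynn : 0 ≤ s * D (A u) (B u) (st A B y) := by
    by_cases h : y.1 = u
    · rw [hy0 h, mul_zero]
    · exact (hy h).le
  have hpos : 0 < a * (s * D (A u) (B u) (fn A B x)) + b * (s * D (A u) (B u) (st A B y)) := by
    by_cases h : x.1 = u
    · have hyu : y.1 ≠ u := fun h' => hxy (h.trans h'.symm)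
      have h1 := mul_pos hb (hy hyu)
      have h2 := mul_nonneg ha.le hxnn
      linarith
    · have h1 := mul_pos ha (hx h)
      have h2 := mul_nonneg hb.le hynn
      linarith
  have hnon : c * (s * D (A u) (B u) (A j)) + d * (s * D (A u) (B u) (B j)) ≤ 0 := by
    rcases hj with h | ⟨h1, h2⟩
    · subst h
      rw [LMZ_za, LMZ_zb]
      simp
    · have h3 := mul_nonneg hc (neg_nonneg.2 h1.le)
      have h4 := mul_nonneg hd (neg_nonneg.2 h2.le)
      linarith
  have e1 : a * (s * D (A u) (B u) (fn A B x)) + b * (s * D (A u) (B u) (st A B y)) =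
      c * (s * D (A u) (B u) (A j)) + d * (s * D (A u) (B u) (B j)) := by
    have e2 : s * (c * D (A u) (B u) (A j) + d * D (A u) (B u) (B j)) =
        s * (a * D (A u) (B u) (fn A B x) + b * D (A u) (B u) (st A B y)) := by rw [e]
    linarith
  linarith

end Pool.Agent.helper14.AV
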