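import Pool.Agent.helper14.AV.Spec3

/-! # Two consecutive connecting edges -/

set_option autoImplicit false

namespace Pool.Agent.helper14.AV

lemma DS3_aff (a b p q : ℝ × ℝ) (α β : ℝ) (h : α + β = 1) :
    D a b (α • p + β • q) = α * D a b p + β * D a b q := by
  have hβ : β = 1 - α := by linarith
  subst hβ
  unfold D
  simp only [Prod.fst_add, Prod.snd_add, Prod.smul_fst, Prod.smul_snd, smul_eq_mul]
  ring

lemma DS3_seg (a b p q x : ℝ × ℝ) (hx : x ∈ segment ℝ p q) (h : 0 < D a b p * D a b q) :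
    0 < D a b x * D a b p := by
  obtain ⟨α, β, hα, hβ, hαβ, rfl⟩ := hx
  rw [DS3_aff _ _ _ _ _ _ hαβ]
  have hp : D a b p ≠ 0 := by
    intro h0
    rw [h0, zero_mul] at h
    exact lt_irrefl _ h
  have hp2 : 0 < D a b p ^ 2 := by positivity
  have e : (α * D a b p + β * D a b q) * D a b p = α * D a b p ^ 2 + β * (D a b p * D a b q) := by ring
  rw [e]
  rcases hα.lt_or_eq with h1 | h1
  · have h2 := mul_pos h1 hp2
    have h3 := mul_nonneg hβ h.le
    linarith
  · have hβ1 : β = 1 := by linarith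
    rw [← h1, hβ1]
    linarith

lemma DS3_on (a b x : ℝ × ℝ) (hx : x ∈ segment ℝ a b) : D a b x = 0 := by
  obtain ⟨α, β, hα, hβ, hαβ, rfl⟩ := hx
  rw [DS3_aff _ _ _ _ _ _ hαβ]
  unfold D
  ring

lemma DS3_tr (u u' v v' : ℝ) (hu : 0 < u * u') (hv : 0 < v * v') (h : 0 < u' * v') : 0 < u * v := by
  have h1 : 0 < (u * u') * (v * v') := mul_pos hu hv
  have h2 : (u * u') * (v * v') = (u * v) * (u' * v') := by ring
  rw [h2] at h1
  exact (pos_iff_pos_of_mul_pos h1).2 h

lemma DS3_neg (u u' v v' : ℝ) (hu : 0 < u * u') (hv : 0 < v * v') (h : u' * v' < 0) : u * v < 0 := by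
  have h1 : 0 < (u * u') * (v * v') := mul_pos hu hv
  have h2 : (u * u') * (v * v') = (u * v) * (u' * v') := by ring
  rw [h2] at h1
  by_contra h3
  have h4 : 0 ≤ u * v := not_lt.1 h3
  have h5 : (u * v) * (u' * v') ≤ 0 := mul_nonpos_of_nonneg_of_nonpos h4 h.le
  linarith

theorem DS3 (hSDD : SDD_stmt) (hTRG : TRG_stmt) (hCRS : CRS_stmt) : DS3_stmt := by
  intro ι P Q A B hN hS x y z hxy hyz hxz hSz hSx hdis
  -- membership
  have mA : ∀ u, A u ∈ segment ℝ (P u) (Q u) := fun u => by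
    obtain ⟨c, _, _, h, _⟩ := hSDD ι P Q A B hS u
    exact h
  have mB : ∀ u, B u ∈ segment ℝ (P u) (Q u) := fun u => by
    obtain ⟨c, _, _, _, h⟩ := hSDD ι P Q A B hS u
    exact h
  have mfn : ∀ t : ι × Bool, fn A B t ∈ segment ℝ (P t.1) (Q t.1) := by
    intro t
    unfold fn
    split_ifs
    · exact mB _
    · exact mA _
  have mst : ∀ t : ι × Bool, st A B t ∈ segment ℝ (P t.1) (Q t.1) := by
    intro t
    unfold st
    split_ifs
    · exact mA _
    · exact mB _
  have mfn' : ∀ t : ι × Bool, fn P Q t ∈ segment ℝ (P t.1) (Q t.1) := by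
    intro t
    unfold fn
    split_ifs
    · exact right_mem_segment ℝ _ _
    · exact left_mem_segment ℝ _ _
  have mst' : ∀ t : ι × Bool, st P Q t ∈ segment ℝ (P t.1) (Q t.1) := by
    intro t
    unfold st
    split_ifs
    · exact left_mem_segment ℝ _ _
    · exact right_mem_segment ℝ _ _
  have nz : ∀ i j, i ≠ j → D (P i) (Q i) (P j) ≠ 0 := by
    intro i j hij h0
    have h := hN i j hij
    rw [h0, zero_mul] at h
    exact lt_irrefl _ h
  obtain ⟨c, hc0, hcD, -, -⟩ := hSDD ι P Q A B hS y.1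
  -- the values of the two determinants
  have sfA : ∀ X, D (st A B y) (fn A B y) X = (if y.2 then 1 else -1) * (c * D (P y.1) (Q y.1) X) := by
    intro X
    rw [← hcD X]
    unfold st fn
    split_ifs
    · rw [one_mul]
    · unfold D
      ring
  have sfP : ∀ X, D (st P Q y) (fn P Q y) X = (if y.2 then 1 else -1) * D (P y.1) (Q y.1) X := by
    intro X
    unfold st fn
    split_ifs
    · rw [one_mul]
    · unfold D
      ring
  have hsq : (if y.2 then (1 : ℝ) else -1) * (if y.2 then (1 : ℝ) else -1) = 1 := by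
    split_ifs <;> norm_num
  have sgn : ∀ X X', 0 < D (P y.1) (Q y.1) X * D (P y.1) (Q y.1) X' →
      0 < D (st A B y) (fn A B y) X * D (st P Q y) (fn P Q y) X' := by
    intro X X' h
    rw [sfA, sfP]
    have e : (if y.2 then (1 : ℝ) else -1) * (c * D (P y.1) (Q y.1) X) *
        ((if y.2 then (1 : ℝ) else -1) * D (P y.1) (Q y.1) X') =
        ((if y.2 then (1 : ℝ) else -1) * (if y.2 then (1 : ℝ) else -1)) *
          (c * (D (P y.1) (Q y.1) X * D (P y.1) (Q y.1) X')) := by ring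
    rw [e, hsq, one_mul]
    exact mul_pos hc0 h
  have same : ∀ i X X', y.1 ≠ i → X ∈ segment ℝ (P i) (Q i) → X' ∈ segment ℝ (P i) (Q i) →
      0 < D (P y.1) (Q y.1) X * D (P y.1) (Q y.1) X' := by
    intro i X X' hi hX hX'
    have h1 := DS3_seg _ _ _ _ _ hX (hN y.1 i hi)
    have h2 := DS3_seg _ _ _ _ _ hX' (hN y.1 i hi)
    exact DS3_tr _ _ _ _ h1 h2 (mul_self_pos.2 (nz _ _ hi))
  change Disjoint (segment ℝ (fn A B x) (st A B y)) (segment ℝ (fn A B y) (st A B z))
  have hdis' : Disjoint (segment ℝ (fn P Q x) (st P Q y)) (segment ℝ (fn P Q y) (st P Q z)) := hdis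
  by_cases hSy : SS P Q y.1 x.1 z.1
  · -- all three segments are mutually on one side
    have T := hTRG ι P Q hN x.1 y.1 z.1 hxy hxz hyz hSx hSy hSz
    have q1 : 0 < D (fn A B x) (st A B y) (st A B z) * D (fn P Q x) (st P Q y) (st P Q z) :=
      T _ _ _ _ _ _ (mfn x) (mfn' x) (mst y) (mst' y) (mst z) (mst' z)
    have q2 : 0 < D (fn A B x) (fn A B y) (st A B z) * D (fn P Q x) (fn P Q y) (st P Q z) :=
      T _ _ _ _ _ _ (mfn x) (mfn' x) (mfn y) (mfn' y) (mst z) (mst' z)
    have q3 := sgn _ _ (same x.1 _ _ hxy.symm (mfn x) (mfn' x))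
    have q4 := sgn _ _ (same z.1 _ _ hyz (mst z) (mst' z))
    have cyc : ∀ a b d : ℝ × ℝ, D a b d = D b d a := by
      intro a b d
      unfold D
      ring
    rw [← cyc (fn A B x) (st A B y) (fn A B y), ← cyc (fn P Q x) (st P Q y) (fn P Q y)] at q3
    -- `q3 : 0 < D a b c * D a' b' c'`
    have n1 : D (fn P Q x) (st P Q y) (fn P Q y) * D (fn P Q x) (st P Q y) (st P Q z) ≠ 0 :=
      mul_ne_zero (fun h => by rw [h, mul_zero] at q3; exact lt_irrefl _ q3)
        (fun h => by rw [h, mul_zero] at q1; exact lt_irrefl _ q1)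
    rcases lt_or_gt_of_ne n1 with h1 | h1
    · -- the second product must be positive
      have n2 : D (fn P Q x) (fn P Q y) (st P Q z) * D (st P Q y) (fn P Q y) (st P Q z) ≠ 0 :=
        mul_ne_zero (fun h => by rw [h, mul_zero] at q2; exact lt_irrefl _ q2)
          (fun h => by rw [h, mul_zero] at q4; exact lt_irrefl _ q4)
      rcases lt_or_gt_of_ne n2 with h2 | h2
      · exfalso
        refine (hCRS (fn P Q x) (st P Q y) (fn P Q y) (st P Q z)).2 h1 ?_ hdis'
        rw [← cyc (fn P Q x) (fn P Q y) (st P Q z), ← cyc (st P Q y) (fn P Q y) (st P Q z)]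
        exact h2
      · refine ((hCRS (fn A B y) (st A B z) (fn A B x) (st A B y)).1 ?_).symm
        rw [← cyc (fn A B x) (fn A B y) (st A B z), ← cyc (st A B y) (fn A B y) (st A B z)]
        exact DS3_tr _ _ _ _ q2 q4 h2
    · exact (hCRS (fn A B x) (st A B y) (fn A B y) (st A B z)).1 (DS3_tr _ _ _ _ q3 q1 h1)
  · -- different sides of the line of `y`
    have hneg : D (P y.1) (Q y.1) (P x.1) * D (P y.1) (Q y.1) (P z.1) < 0 := by
      rcases lt_trichotomy (D (P y.1) (Q y.1) (P x.1) * D (P y.1) (Q y.1) (P z.1)) 0 with h | h | h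
      · exact h
      · exact absurd h (mul_ne_zero (nz _ _ hxy.symm) (nz _ _ hyz))
      · exact absurd h hSy
    have k1 := DS3_seg _ _ _ _ _ (mfn x) (hN y.1 x.1 hxy.symm)
    have k2 := DS3_seg _ _ _ _ _ (mst z) (hN y.1 z.1 hyz)
    have k3 := DS3_neg _ _ _ _ k1 k2 hneg
    rw [Set.disjoint_left]
    rintro w ⟨α, β, hα, hβ, hαβ, rfl⟩ ⟨γ, δ, hγ, hδ, hγδ, hw⟩
    have e := congrArg (D (P y.1) (Q y.1)) hw
    rw [DS3_aff _ _ _ _ _ _ hαβ, DS3_aff _ _ _ _ _ _ hγδ, DS3_on _ _ _ (mst y), DS3_on _ _ _ (mfn y)] at e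
    have ea : δ * D (P y.1) (Q y.1) (st A B z) = α * D (P y.1) (Q y.1) (fn A B x) := by linarith
    have hane : D (P y.1) (Q y.1) (fn A B x) ≠ 0 := by
      intro h0
      rw [h0, zero_mul] at k3
      exact lt_irrefl _ k3
    have hdne : D (P y.1) (Q y.1) (st A B z) ≠ 0 := by
      intro h0
      rw [h0, mul_zero] at k3
      exact lt_irrefl _ k3
    have hα0 : α = 0 := by
      have h1 : α * D (P y.1) (Q y.1) (fn A B x) ^ 2 =
          δ * (D (P y.1) (Q y.1) (fn A B x) * D (P y.1) (Q y.1) (st A B z)) := by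
        calc α * D (P y.1) (Q y.1) (fn A B x) ^ 2
            = (α * D (P y.1) (Q y.1) (fn A B x)) * D (P y.1) (Q y.1) (fn A B x) := by ring
          _ = (δ * D (P y.1) (Q y.1) (st A B z)) * D (P y.1) (Q y.1) (fn A B x) := by rw [ea]
          _ = _ := by ring
      have h2 : δ * (D (P y.1) (Q y.1) (fn A B x) * D (P y.1) (Q y.1) (st A B z)) ≤ 0 :=
        mul_nonpos_of_nonneg_of_nonpos hδ k3.le
      have h3 : 0 < D (P y.1) (Q y.1) (fn A B x) ^ 2 := by positivity
      by_contra h0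
      have h4 : 0 < α := lt_of_le_of_ne hα (Ne.symm h0)
      have h5 := mul_pos h4 h3
      linarith
    have hδ0 : δ = 0 := by
      rw [hα0, zero_mul] at ea
      exact (mul_eq_zero.1 ea).resolve_right hdne
    have hβ1 : β = 1 := by linarith
    have hγ1 : γ = 1 := by linarith
    rw [hα0, hδ0, hβ1, hγ1, zero_smul, zero_smul, one_smul, one_smul, add_zero, zero_add] at hw
    -- `fn A B y = st A B y`
    have h6 := sfA (P x.1)
    rw [hw] at h6
    have h7 : D (st A B y) (st A B y) (P x.1) = 0 := by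
      unfold D
      ring
    rw [h7] at h6
    have h8 : (if y.2 then (1 : ℝ) else -1) ≠ 0 := by
      split_ifs <;> norm_num
    exact (mul_ne_zero h8 (mul_ne_zero hc0.ne' (nz _ _ hxy.symm))) h6.symm

end Pool.Agent.helper14.AV
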